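import Pool.Agent.Y9.LR.Loc

set_option autoImplicit false

/-!
Local `Pi^1_1` reflection over a weak base theory. The language, structures, provability, `ACA_0`,
Goedel numbering and arithmetizations are in `Pool/Agent/H986R3/SOADefs.lean`; the proof
predicates `ProofPred`, the instances `refl` of local reflection and the weak base theory `Weak`
are in `Pool/Agent/Y9/LR/Loc.lean`.
-/

namespace Pool.Agent.Results.MP_3ad381_lc.LocalReflection

open Pool.Agent.H986R3.SOA Pool.Agent.Y9.LR

/-- For every proof predicate that is correct in the standard model: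

1. for every `Sigma^1_1` formula `τ(a)` there is a `Pi^1_1` sentence `γ` such that the weak base
   theory (recursion equations of `+` and `*`, comprehension for the sections of a set) proves
   `(Pr_τ(γ) → γ) → γ`, and such that `γ` is true if and only if it is not provable in the theory
   that `τ` defines in the standard model;
2. if `T` is a `Pi^1_1`-sound set of sentences that proves the axioms of the weak base theory, and
   `τ` is a `Sigma^1_1` definition of `T`, then for some true `Pi^1_1` sentence `γ` the instance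
   `Pr_τ(γ) → γ` of local reflection is not provable in `T`; so `T` does not prove
   `∀ φ ∈ Pi^1_1 (Pr_τ(φ) → tr(φ))` for any formula `tr` with `T ⊢ tr(φ) → φ` for all `φ`;
3. no `Pi^1_1`-sound, `Sigma^1_1`-definable extension of `ACA_0` proves its own
   `Pi^1_1`-soundness. -/
theorem result :
    (∀ (Pp : ProofPred) (τ : Fm), τ.IsSigma11 → τ.FreeIn {0} →
      ∃ γ : Fm, γ.IsPi11Sentence ∧ Proves {ψ | Weak ψ} (.imp (Pp.refl τ γ) γ) ∧
        ∀ T : Set Fm, (∀ ψ ∈ T, ψ.IsSentence) → Sigma11Defines τ T →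
          (std.Holds γ ↔ ¬ Proves T γ)) ∧
    (∀ (Pp : ProofPred) (T : Set Fm), (∀ ψ ∈ T, ψ.IsSentence) →
      (∀ ψ, Weak ψ → Proves T ψ) → Pi11Sound T → ∀ τ : Fm, Sigma11Defines τ T →
        (∃ γ : Fm, γ.IsPi11Sentence ∧ std.Holds γ ∧ ¬ Proves T (Pp.refl τ γ)) ∧
        ∀ isPi tr : Fm,
          (∀ φ : Fm, φ.IsPi11Sentence → Proves T (isPi.inst φ.code)) →
          (∀ φ : Fm, φ.IsPi11Sentence → Proves T (.imp (tr.inst φ.code) φ)) →
          ¬ Proves T (.all 2 (.imp (.and isPi (Pp.Pr τ)) tr))) ∧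
    (∀ 𝒜 : Arithmetization,
      ¬ ∃ T : Set Fm, ExtendsACA0 T ∧ Pi11Sound T ∧ ProvesOwnSoundness 𝒜 T) := by
  refine ⟨fun Pp τ h1 h2 => local_main Pp τ h1 h2, fun Pp T hTs hW hS τ hτ =>
    ⟨local_fail Pp T hTs hW hS τ hτ, fun isPi tr h1 h2 h => ?_⟩, ?_⟩
  · obtain ⟨γ, h3, _, h5⟩ := local_fail Pp T hTs hW hS τ hτ
    exact h5 (instance_of_uniform Pp T τ isPi tr h1 h2 h γ h3)
  · rintro 𝒜 ⟨T, hT, hS, hP⟩
    exact aca_fail 𝒜 T hT hS hP

end Pool.Agent.Results.MP_3ad381_lc.LocalReflection
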